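import Mathlib

set_option autoImplicit false

/-!
The abstract queue process used for the fixed point forest.
-/

namespace R122.FF

/-- insert `a` at index `i` -/
def ins (i a : ℕ) (l : List ℕ) : List ℕ := l.take i ++ a :: l.drop i

theorem ins_zero (a : ℕ) (l : List ℕ) : ins 0 a l = a :: l := by
  simp [ins]

theorem ins_succ_cons (i a b : ℕ) (l : List ℕ) : ins (i + 1) a (b :: l) = b :: ins i a l := by
  simp [ins]

theorem ins_length (i a : ℕ) (l : List ℕ) : (ins i a l).length = l.length + 1 := by
  simp only [ins, List.length_append, List.length_take, List.length_cons, List.length_drop]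
  omega

theorem ins_perm (i a : ℕ) (l : List ℕ) : (ins i a l).Perm (a :: l) := by
  have h : (ins i a l).Perm (a :: (l.take i ++ l.drop i)) := List.perm_middle
  rwa [List.take_append_drop] at h

theorem mem_ins (i a x : ℕ) (l : List ℕ) : x ∈ ins i a l ↔ x = a ∨ x ∈ l := by
  rw [(ins_perm i a l).mem_iff, List.mem_cons]

theorem ins_append_left (i a : ℕ) (l1 l2 : List ℕ) (h : i ≤ l1.length) :
    ins i a (l1 ++ l2) = ins i a l1 ++ l2 := by
  simp [ins, List.take_append_of_le_length h, List.drop_append_of_le_length h]

theorem ins_append_right (i a : ℕ) (l1 l2 : List ℕ) :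
    ins (l1.length + i) a (l1 ++ l2) = l1 ++ ins i a l2 := by
  simp [ins, List.take_append, List.drop_append, List.take_of_length_le,
    List.drop_of_length_le]

/-- keep `v` only if it is a letter of the window -/
def ltr (w v : ℕ) : List ℕ := if v < w then [v] else []

theorem mem_ltr (w v x : ℕ) : x ∈ ltr w v ↔ x = v ∧ v < w := by
  unfold ltr
  split_ifs with h <;> simp [h]

theorem ltr_succ (w v : ℕ) (h : v ≠ w) : ltr (w + 1) v = ltr w v := by
  unfold ltr
  have : v < w + 1 ↔ v < w := by omega
  simp [this]

theorem ltr_self (w : ℕ) : ltr (w + 1) w = [w] := by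
  simp [ltr]

theorem ltr_length (w v : ℕ) : (ltr w v).length ≤ 1 := by
  unfold ltr
  split_ifs <;> simp

/-- Survival of all stages that only involve the `w` largest letters. -/
inductive Sv (d w : ℕ) : ℕ → List ℕ → List ℕ → Prop
  | last (s : ℕ) (U : List ℕ) : Sv d w s (s :: U) []
  | need (s : ℕ) (U : List ℕ) (v : ℕ) (B : List ℕ) :
      Sv d w (s + 1) (U ++ ltr w v) B → Sv d w s (s :: U) (v :: B)
  | safe (s c : ℕ) (U : List ℕ) (v : ℕ) (B : List ℕ) :
      s + d < c → Sv d w s (U ++ ltr w v) (ins (w - 1 - c) c B) → Sv d w s (c :: U) (v :: B)

theorem Sv.proj {d w s : ℕ} {U' B' : List ℕ} (h : Sv d (w + 1) s U' B') :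
    ∀ (v' : ℕ) (B U1 U2 : List ℕ), B' = v' :: B →
      U' ++ ltr (w + 1) v' = U1 ++ w :: U2 → (∀ c ∈ U1 ++ U2, c < w) → (∀ c ∈ B, c ≠ w) →
      B.length + s + d + 1 = w → Sv d w s (U1 ++ U2) B := by
  induction h with
  | last s U => intro v' B U1 U2 hB; simp at hB
  | need s U v B0 h ih =>
    intro v' B U1 U2 hB hU hlt hBw hlen
    simp only [List.cons.injEq] at hB
    obtain ⟨rfl, rfl⟩ := hB
    rw [List.cons_append] at hU
    cases U1 with
    | nil =>
      simp only [List.nil_append, List.cons.injEq] at hU
      omega
    | cons a U1' =>
      simp only [List.cons_append, List.cons.injEq] at hU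
      obtain ⟨rfl, hU⟩ := hU
      cases B0 with
      | nil => exact Sv.last _ _
      | cons v2 B1 =>
        rw [List.cons_append]
        apply Sv.need
        have hv2 : v2 ≠ w := hBw v2 (by simp)
        have := ih v2 B1 U1' (U2 ++ ltr (w + 1) v2) rfl (by
            rw [hU]; simp) (by
            intro c hc
            rw [← List.append_assoc, List.mem_append, mem_ltr] at hc
            rcases hc with hc | ⟨rfl, hc⟩
            · exact hlt c (by simp at hc ⊢; tauto)
            · omega) (by
            intro c hc; exact hBw c (by simp [hc])) (by
            simp only [List.length_cons] at hlen; omega)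
        rw [ltr_succ _ _ hv2, ← List.append_assoc] at this
        exact this
  | safe s c U v B0 hc h ih =>
    intro v' B U1 U2 hB hU hlt hBw hlen
    simp only [List.cons.injEq] at hB
    obtain ⟨rfl, rfl⟩ := hB
    rw [List.cons_append] at hU
    cases U1 with
    | nil =>
      simp only [List.nil_append, List.cons.injEq] at hU
      obtain ⟨rfl, hU⟩ := hU
      have := ih c B0 U2 [] (by
          rw [show c + 1 - 1 - c = 0 by omega, ins_zero]) (by
          rw [hU, ltr_self]) (by simpa using hlt) hBw hlen
      simpa using this
    | cons a U1' =>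
      simp only [List.cons_append, List.cons.injEq] at hU
      obtain ⟨rfl, hU⟩ := hU
      have hcw : c < w := hlt c (by simp)
      cases B0 with
      | nil => simp only [List.length_nil] at hlen; omega
      | cons v2 B1 =>
        rw [List.cons_append]
        apply Sv.safe _ _ _ _ _ hc
        have hv2 : v2 ≠ w := hBw v2 (by simp)
        have := ih v2 (ins (w - 1 - c) c B1) U1' (U2 ++ ltr (w + 1) v2) (by
            rw [show w + 1 - 1 - c = (w - 1 - c) + 1 by omega, ins_succ_cons]) (by
            rw [hU]; simp) (by
            intro x hx
            rw [← List.append_assoc, List.mem_append, mem_ltr] at hx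
            rcases hx with hx | ⟨rfl, hx⟩
            · exact hlt x (by simp at hx ⊢; tauto)
            · omega) (by
            intro x hx
            rw [mem_ins] at hx
            rcases hx with rfl | hx
            · omega
            · exact hBw x (by simp [hx])) (by
            rw [ins_length]; simp only [List.length_cons] at hlen; omega)
        rw [ltr_succ _ _ hv2, ← List.append_assoc] at this
        exact this

/-- Common step of the two cases of `Sv.track`: from a failing position after the next event to a
failing position now. -/
theorem track_step {d w : ℕ} {s s' : ℕ} {z v : ℕ} {U0 B0 B0' : List ℕ} (hsw : s < w)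
    (hdw : s + d < w) (hzw : z < w) (hv : v ≠ w)
    (hev : ∀ X : List ℕ, ∀ v' : ℕ, Sv d (w + 1) s (z :: X) (v' :: v :: B0) →
      Sv d (w + 1) s' (X ++ ltr (w + 1) v') (v :: B0'))
    (hex : ∃ U1 U2, U0 ++ ltr w v = U1 ++ U2 ∧ U2 ≠ [] ∧
      ∀ U' v', U' ++ ltr (w + 1) v' = U1 ++ w :: U2 → ¬ Sv d (w + 1) s' U' (v' :: B0')) :
    ∃ U1 U2, z :: U0 = U1 ++ U2 ∧ U2 ≠ [] ∧
      ∀ U' v', U' ++ ltr (w + 1) v' = U1 ++ w :: U2 → ¬ Sv d (w + 1) s U' (v' :: v :: B0) := by
  obtain ⟨U1, U2, h12, h2, hfail⟩ := hex
  by_cases hlen : U1.length < U0.length
  · obtain ⟨U3, hU3⟩ : ∃ U3, U0 = U1 ++ U3 := by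
      have hpre : U1 <+: U0 ++ ltr w v := ⟨U2, h12.symm⟩
      have := List.prefix_of_prefix_length_le hpre (List.prefix_append U0 _) hlen.le
      obtain ⟨t, ht⟩ := this
      exact ⟨t, ht.symm⟩
    have hU2 : U2 = U3 ++ ltr w v := by
      rw [hU3, List.append_assoc] at h12
      exact (List.append_cancel_left h12).symm
    refine ⟨z :: U1, U3, by rw [hU3]; simp, ?_, ?_⟩
    · rintro rfl
      rw [List.append_nil] at hU3
      rw [hU3] at hlen
      exact lt_irrefl _ hlen
    · intro U' v' hU' hSv
      cases U' with
      | nil =>
        have := congrArg List.length hU'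
        simp only [List.nil_append, List.length_append, List.length_cons] at this
        have := ltr_length (w + 1) v'
        omega
      | cons a U'' =>
        simp only [List.cons_append, List.cons.injEq] at hU'
        obtain ⟨rfl, hU'⟩ := hU'
        have := hev _ _ hSv
        refine hfail _ _ ?_ this
        rw [hU', hU2, ltr_succ _ _ hv]
        simp
  · have hlens := congrArg List.length h12
    have h2' : 0 < U2.length := List.length_pos_of_ne_nil h2
    have hl := ltr_length w v
    simp only [List.length_append] at hlens
    have e1 : U1.length = U0.length := by omega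
    obtain ⟨e2, e3⟩ := List.append_inj h12 e1.symm
    refine ⟨[], z :: U0, rfl, by simp, ?_⟩
    intro U' v' hU' hSv
    cases U' with
    | nil =>
      have := congrArg List.length hU'
      simp only [List.nil_append, List.length_cons] at this
      have := ltr_length (w + 1) v'
      omega
    | cons a U'' =>
      simp only [List.cons_append, List.nil_append, List.cons.injEq] at hU'
      obtain ⟨rfl, hU'⟩ := hU'
      cases hSv with
      | need => omega
      | safe _ _ _ _ _ hc hS =>
        rw [hU', show a + 1 - 1 - a = 0 by omega, ins_zero] at hS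
        have := hev _ _ hS
        refine hfail _ _ ?_ this
        rw [ltr_self, ltr_succ _ _ hv, ← e3, ← e2]
        simp

theorem Sv.track {d w s : ℕ} {U B : List ℕ} (hd : 1 ≤ d) (h : Sv d w s U B) :
    (∀ c, s ≤ c → c < w → c ∈ U ∨ c ∈ B) → (∀ c ∈ U, c < w) → (∀ c ∈ B, c ≠ w) →
    B.length + s + d + 1 = w →
    ∃ U1 U2, U = U1 ++ U2 ∧ U2 ≠ [] ∧
      ∀ U' v', U' ++ ltr (w + 1) v' = U1 ++ w :: U2 → ¬ Sv d (w + 1) s U' (v' :: B) := by
  induction h with
  | last s U =>
    intro hall hU hB hlen
    simp only [List.length_nil] at hlen
    refine ⟨[s], U, rfl, ?_, ?_⟩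
    · rintro rfl
      have := hall (s + 1) (by omega) (by omega)
      simp at this
    · intro U' v' hU' hSv
      have hUne : 0 < U.length := by
        apply List.length_pos_of_ne_nil
        rintro rfl
        have := hall (s + 1) (by omega) (by omega)
        simp at this
      cases U' with
      | nil =>
        have := congrArg List.length hU'
        simp only [List.nil_append, List.length_append, List.length_cons] at this
        have := ltr_length (w + 1) v'
        omega
      | cons a U'' =>
        simp only [List.cons_append, List.nil_append, List.cons.injEq] at hU'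
        obtain ⟨rfl, hU'⟩ := hU'
        cases hSv with
        | need _ _ _ _ hS =>
          rw [hU'] at hS
          cases hS
          omega
        | safe _ _ _ _ _ hc hS => omega
  | need s U0 v B0 h ih =>
    intro hall hU hB hlen
    have hv : v ≠ w := hB v (by simp)
    simp only [List.length_cons] at hlen
    apply track_step (s' := s + 1) (B0' := B0) (by omega) (by omega) (by omega) hv
    · intro X v' hS
      cases hS with
      | need _ _ _ _ hS => exact hS
      | safe _ _ _ _ _ hc hS => omega
    · apply ih
      · intro c hc1 hc2
        have := hall c (by omega) hc2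
        simp only [List.mem_cons] at this
        rw [List.mem_append, mem_ltr]
        rcases this with (rfl | h) | (rfl | h)
        · omega
        · tauto
        · tauto
        · tauto
      · intro c hc
        rw [List.mem_append, mem_ltr] at hc
        rcases hc with hc | ⟨rfl, hc⟩
        · exact hU c (by simp [hc])
        · exact hc
      · intro c hc; exact hB c (by simp [hc])
      · omega
  | safe s c U0 v B0 hc h ih =>
    intro hall hU hB hlen
    have hv : v ≠ w := hB v (by simp)
    have hcw : c < w := hU c (by simp)
    simp only [List.length_cons] at hlen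
    apply track_step (s' := s) (B0' := ins (w - 1 - c) c B0) (by omega) (by omega) hcw hv
    · intro X v' hS
      cases hS with
      | need _ _ _ _ hS => omega
      | safe _ _ _ _ _ hc hS =>
        rw [show w + 1 - 1 - c = (w - 1 - c) + 1 by omega, ins_succ_cons] at hS
        exact hS
    · apply ih
      · intro x hx1 hx2
        have := hall x hx1 hx2
        simp only [List.mem_cons] at this
        rw [List.mem_append, mem_ltr, mem_ins]
        rcases this with (rfl | h) | (rfl | h)
        · tauto
        · tauto
        · tauto
        · tauto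
      · intro x hx
        rw [List.mem_append, mem_ltr] at hx
        rcases hx with hx | ⟨rfl, hx⟩
        · exact hU x (by simp [hx])
        · exact hx
      · intro x hx
        rw [mem_ins] at hx
        rcases hx with rfl | hx
        · omega
        · exact hB x (by simp [hx])
      · rw [ins_length]; omega

end R122.FF
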