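import Pool.Agent.R122.FF.Abs

set_option autoImplicit false

namespace R122.FF

open Nat

/-- the orders of the `w` window letters -/
def Ords (w : ℕ) : Finset (List ℕ) := (List.range w).permutations.toFinset

theorem mem_Ords (w : ℕ) (L : List ℕ) : L ∈ Ords w ↔ L.Perm (List.range w) := by
  simp [Ords, List.mem_permutations]

theorem card_Ords_le (w : ℕ) : (Ords w).card ≤ w ! := by
  refine (List.toFinset_card_le _).trans ?_
  simp [List.length_permutations]

theorem split_Ords {w : ℕ} {L : List ℕ} (h : L ∈ Ords (w + 1)) :
    ∃ X1 X2, L = X1 ++ w :: X2 ∧ w ∉ X1 ∧ X1 ++ X2 ∈ Ords w ∧ L.erase w = X1 ++ X2 := by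
  rw [mem_Ords] at h
  have hw : w ∈ L := h.mem_iff.2 (by simp)
  obtain ⟨X1, X2, h1, h2⟩ := List.eq_append_cons_of_mem hw
  refine ⟨X1, X2, h1, h2, ?_, ?_⟩
  · rw [mem_Ords]
    have e1 : (w :: (X1 ++ X2)).Perm L := by
      rw [h1]; exact List.perm_middle.symm
    have e2 : (List.range (w + 1)).Perm (w :: List.range w) := by
      rw [List.range_succ]; exact List.perm_append_comm
    exact ((e1.trans h).trans e2).cons_inv
  · rw [h1, List.erase_append_right _ h2]
    simp

theorem count (d : ℕ) (hd : 1 ≤ d) (k : ℕ) : ∀ B : List ℕ, B.length = k →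
    (∀ c ∈ B, d + 1 + k ≤ c) → ∀ [DecidablePred fun U => Sv d (d + 1 + k) 0 U B],
    ((Ords (d + 1 + k)).filter (fun U => Sv d (d + 1 + k) 0 U B)).card ≤ (d + 1) * (d + k)! := by
  induction k with
  | zero =>
    intro B _ _ _
    refine (Finset.card_filter_le _ _).trans ((card_Ords_le _).trans ?_)
    rw [Nat.factorial_succ]
    simp
  | succ k ih =>
    intro B hB hBc _
    classical
    obtain ⟨v', B', rfl⟩ : ∃ v' B', B = v' :: B' := by
      cases B with
      | nil => simp at hB
      | cons a b => exact ⟨a, b, rfl⟩
    simp only [List.length_cons, Nat.add_right_cancel_iff] at hB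
    set w := d + 1 + k with hw
    have hv' : w + 1 ≤ v' := hBc v' (by simp)
    have hB' : ∀ c ∈ B', w + 1 ≤ c := fun c hc => hBc c (by simp [hc])
    have hl : ltr (w + 1) v' = [] := by simp [ltr]; omega
    have ih' := ih B' hB (fun c hc => by have := hB' c hc; omega)
    have key : ((Ords (w + 1)).filter (fun U => Sv d (w + 1) 0 U (v' :: B'))).card ≤
        w * ((Ords w).filter (fun U => Sv d w 0 U B')).card := by
      apply Finset.card_le_mul_card_image_of_maps_to (f := fun U => U.erase w)
      · intro U' hU'
        rw [Finset.mem_filter] at hU'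
        obtain ⟨h1, h2⟩ := hU'
        obtain ⟨X1, X2, e1, e2, e3, e4⟩ := split_Ords h1
        rw [Finset.mem_filter]
        refine ⟨by rw [e4]; exact e3, ?_⟩
        rw [e4]
        have hlt : ∀ c ∈ X1 ++ X2, c < w := by
          intro c hc
          rw [mem_Ords] at e3
          simpa using e3.mem_iff.1 hc
        apply Sv.proj h2 v' B' X1 X2 rfl (by rw [hl, e1]; simp) hlt
        · intro c hc; have := hB' c hc; omega
        · omega
      · intro U hU
        rw [Finset.mem_filter] at hU
        obtain ⟨h1, h2⟩ := hU
        rw [mem_Ords] at h1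
        obtain ⟨U1, U2, e1, e2, e3⟩ := Sv.track hd h2
          (by intro c _ hc; left; rw [h1.mem_iff]; simpa using hc)
          (by intro c hc; rw [h1.mem_iff] at hc; simpa using hc)
          (by intro c hc; have := hB' c hc; omega) (by omega)
        have hUl : U.length = w := by rw [h1.length_eq]; simp
        have hr0 : U1.length < w + 1 := by
          rw [← hUl, e1]; simp
        have hsub : ((Ords (w + 1)).filter (fun U => Sv d (w + 1) 0 U (v' :: B'))).filter
            (fun U' => U'.erase w = U) ⊆
            ((Finset.range (w + 1)).erase U1.length).image (fun r => ins r w U) := by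
          intro U' hU'
          rw [Finset.mem_filter, Finset.mem_filter] at hU'
          obtain ⟨⟨h3, h4⟩, h5⟩ := hU'
          obtain ⟨X1, X2, f1, f2, f3, f4⟩ := split_Ords h3
          rw [Finset.mem_image]
          have h6 : X1 ++ X2 = U := by rw [← f4, h5]
          refine ⟨X1.length, ?_, ?_⟩
          · rw [Finset.mem_erase, Finset.mem_range]
            constructor
            · intro hr
              rw [e1] at h6
              obtain ⟨g1, g2⟩ := List.append_inj h6 hr
              apply e3 U' v' _ h4
              rw [hl, f1, g1, g2]; simp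
            · have := congrArg List.length h6
              simp only [List.length_append] at this
              omega
          · rw [← h6, f1]
            have := ins_append_right 0 w X1 X2
            rw [Nat.add_zero, ins_zero] at this
            exact this
        refine (Finset.card_le_card hsub).trans (Finset.card_image_le.trans ?_)
        rw [Finset.card_erase_of_mem (Finset.mem_range.2 hr0)]
        simp
    have e : (Ords (w + 1)).filter (fun U => Sv d (w + 1) 0 U (v' :: B')) =
        (Ords (d + 1 + (k + 1))).filter (fun U => Sv d (d + 1 + (k + 1)) 0 U (v' :: B')) := by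
      rfl
    calc _ = ((Ords (w + 1)).filter (fun U => Sv d (w + 1) 0 U (v' :: B'))).card := by
          rw [e]
      _ ≤ w * ((Ords w).filter (fun U => Sv d w 0 U B')).card := key
      _ ≤ w * ((d + 1) * (d + k)!) := Nat.mul_le_mul_left _ (by convert ih')
      _ = (d + 1) * (d + (k + 1))! := by
        rw [← Nat.add_assoc d k 1, Nat.factorial_succ, hw]; ring

end R122.FF
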