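import Pool.Agent.R122.FF.Main

set_option autoImplicit false

namespace R122.FF

open Nat Finset Filter Topology

/-- `π'` arises from `π` by bumping a true fixed point. -/
def IsBump {n : ℕ} (π π' : Equiv.Perm (Fin n)) : Prop :=
  ∃ i : Fin n, (i : ℕ) ≠ 0 ∧ π i = i ∧
    (∀ j : Fin n, (j : ℕ) = 0 → π' j = i) ∧
    (∀ j k : Fin n, (j : ℕ) = (k : ℕ) + 1 → j ≤ i → π' j = π k) ∧
    (∀ j : Fin n, i < j → π' j = π j)

/-- The fixed point forest. -/
def forest (n : ℕ) : SimpleGraph (Equiv.Perm (Fin n)) := SimpleGraph.fromRel IsBump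

/-- The component of the identity. -/
def idTree (n : ℕ) : Set (Equiv.Perm (Fin n)) := {π | (forest n).Reachable 1 π}

theorem word_inj {n : ℕ} : Function.Injective (word : Equiv.Perm (Fin n) → List ℕ) := by
  intro π π' h
  ext x
  have h1 : (word π)[(x : ℕ)]? = (word π')[(x : ℕ)]? := by rw [h]
  simpa [word] using h1

theorem word_one {n : ℕ} : word (1 : Equiv.Perm (Fin n)) = List.range n := by
  apply List.ext_getElem
  · rw [word_length, List.length_range]
  · intro i h1 h2
    rw [word_getElem]; simp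

theorem word_cons {m : ℕ} (π : Equiv.Perm (Fin (m + 1))) :
    word π = (π 0 : ℕ) :: (word π).drop 1 := by
  have h1 : 0 < (word π).length := by rw [word_length]; omega
  conv_lhs => rw [← List.drop_zero (l := word π)]
  rw [List.drop_eq_getElem_cons h1, word_getElem]
  rfl

theorem word_bump {m : ℕ} {π π' : Equiv.Perm (Fin (m + 1))} (h : IsBump π π') :
    word π = par (word π') ∧ (π' 0 : ℕ) ≠ 0 := by
  obtain ⟨i, hi, h1, h2, h3, h4⟩ := h
  have h0 : π' 0 = i := h2 0 rfl
  refine ⟨?_, by rw [h0]; exact hi⟩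
  rw [word_cons π', h0, par_cons _ hi]
  have hi2 := i.2
  have hlen := ins_length i i ((word π').drop 1)
  unfold ins at hlen ⊢
  apply List.ext_getElem
  · rw [hlen, List.length_drop, word_length, word_length]; omega
  · intro j hj1 hj2
    rw [word_length] at hj1
    rw [word_getElem]
    by_cases hji : j < i
    · rw [List.getElem_append_left (by
        rw [List.length_take, List.length_drop, word_length]; omega)]
      rw [List.getElem_take, List.getElem_drop, word_getElem]
      rw [h3 ⟨1 + j, by omega⟩ ⟨j, hj1⟩ (by simp; omega) (by rw [Fin.le_def]; simp; omega)]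
    · have hl : ((List.drop 1 (word π')).take i).length = i := by
        rw [List.length_take, List.length_drop, word_length]; omega
      rw [List.getElem_append_right (by omega)]
      by_cases hje : j = i
      · have e1 : j - ((List.drop 1 (word π')).take i).length = 0 := by omega
        simp only [e1, List.getElem_cons_zero]
        have : (⟨j, hj1⟩ : Fin (m + 1)) = i := by ext; exact hje
        rw [this, h1]
      · have e1 : j - ((List.drop 1 (word π')).take i).length = (j - i - 1) + 1 := by omega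
        simp only [e1, List.getElem_cons_succ]
        rw [List.getElem_drop, List.getElem_drop, word_getElem]
        have e2 : 1 + ((i : ℕ) + (j - i - 1)) = j := by omega
        simp only [e2]
        rw [h4 ⟨j, hj1⟩ (by rw [Fin.lt_def]; simp; omega)]

theorem bump_par {m : ℕ} (π : Equiv.Perm (Fin (m + 1))) (h : (π 0 : ℕ) ≠ 0) :
    IsBump (π * Fin.cycleRange (π 0)) π := by
  refine ⟨π 0, h, ?_, ?_, ?_, ?_⟩
  · rw [Equiv.Perm.mul_apply, Fin.cycleRange_self]
  · intro j hj
    have : j = 0 := by ext; exact hj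
    rw [this]
  · intro j k hjk hj
    have hk : k < π 0 := by
      rw [Fin.le_def] at hj; rw [Fin.lt_def]; omega
    rw [Equiv.Perm.mul_apply, Fin.cycleRange_of_lt hk]
    congr 1
    ext
    rw [hjk, Fin.val_add_one_of_lt (lt_of_lt_of_le hk (Fin.le_last _))]
  · intro j hj
    rw [Equiv.Perm.mul_apply, Fin.cycleRange_of_gt hj]

theorem idTree_iff {m : ℕ} (π : Equiv.Perm (Fin (m + 1))) : π ∈ idTree (m + 1) ↔ Rch π := by
  constructor
  · intro h
    have h' : (forest (m + 1)).Reachable 1 π := h
    rw [SimpleGraph.reachable_iff_reflTransGen] at h'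
    induction h' with
    | refl => exact ⟨0, word_one⟩
    | tail _ hab ih =>
      rename_i a b hpath
      have hr : Rch a := ih (by
        show (forest (m + 1)).Reachable 1 a
        rw [SimpleGraph.reachable_iff_reflTransGen]; exact hpath)
      unfold forest at hab
      rw [SimpleGraph.fromRel_adj] at hab
      obtain ⟨t, ht⟩ := hr
      rcases hab.2 with hb | hb
      · exact ⟨t + 1, by rw [Function.iterate_succ_apply, ← (word_bump hb).1, ht]⟩
      · obtain ⟨e1, e2⟩ := word_bump hb
        cases t with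
        | zero =>
          exfalso
          rw [Function.iterate_zero, id_eq, word_cons, List.range_succ_eq_map] at ht
          simp only [List.cons.injEq] at ht
          exact e2 ht.1
        | succ t =>
          exact ⟨t, by rw [e1, ← Function.iterate_succ_apply, ht]⟩
  · rintro ⟨t, ht⟩
    induction t generalizing π with
    | zero =>
      rw [Function.iterate_zero, id_eq, ← word_one] at ht
      rw [word_inj ht]
      exact SimpleGraph.Reachable.refl _
    | succ t ih =>
      rw [Function.iterate_succ_apply] at ht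
      by_cases h0 : (π 0 : ℕ) = 0
      · rw [word_cons, h0, par_zero_cons, ← h0, ← word_cons] at ht
        exact ih π ht
      · have hb := bump_par π h0
        rw [← (word_bump hb).1] at ht
        have h1 : (forest (m + 1)).Reachable 1 (π * Fin.cycleRange (π 0)) := ih _ ht
        by_cases he : π * Fin.cycleRange (π 0) = π
        · rw [he] at h1; exact h1
        · refine h1.trans (SimpleGraph.Adj.reachable ?_)
          unfold forest
          rw [SimpleGraph.fromRel_adj]
          exact ⟨he, Or.inl hb⟩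

open Classical in
/-- fraction of permutations with `0` at position `m - d` that reach the identity -/
noncomputable def F (m d : ℕ) : ℝ :=
  if h : d ≤ m then (((Z (⟨m - d, by omega⟩ : Fin (m + 1))).filter Rch).card : ℝ) / (m ! : ℝ)
  else 0

open Classical in
theorem ncard_eq (m : ℕ) : ((idTree (m + 1)).ncard : ℝ) / (m ! : ℝ) =
    ∑ d ∈ Finset.range (m + 1), F m d := by
  have h1 : idTree (m + 1) = ((univ.filter Rch : Finset (Equiv.Perm (Fin (m + 1)))) :
      Set (Equiv.Perm (Fin (m + 1)))) := by
    ext π; simp [idTree_iff]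
  rw [h1, Set.ncard_coe_finset]
  have h2 : (univ.filter Rch : Finset (Equiv.Perm (Fin (m + 1)))).card =
      ∑ i : Fin (m + 1), ((Z i).filter Rch).card := by
    rw [Finset.card_eq_sum_card_fiberwise (f := fun π => π⁻¹ 0) (t := univ)
      (fun _ _ => Finset.mem_coe.2 (mem_univ _))]
    refine Finset.sum_congr rfl (fun i _ => ?_)
    congr 1
    ext π
    simp only [mem_filter, mem_univ, true_and, mem_Z]
    rw [Equiv.Perm.inv_eq_iff_eq]
    constructor
    · rintro ⟨h, h'⟩; exact ⟨h'.symm, h⟩
    · rintro ⟨h, h'⟩; exact ⟨h', h.symm⟩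
  rw [h2, Nat.cast_sum, Finset.sum_div]
  rw [← Finset.sum_range_reflect, Finset.sum_range]
  refine Finset.sum_congr rfl (fun i _ => ?_)
  have hi := i.2
  unfold F
  rw [dif_pos (by omega)]
  have : (⟨m - (m + 1 - 1 - (i : ℕ)), by omega⟩ : Fin (m + 1)) = i := by
    ext; simp; omega
  rw [this]

open Classical in
theorem F_nonneg (m d : ℕ) : 0 ≤ F m d := by
  unfold F
  split_ifs
  · positivity
  · exact le_refl _

open Classical in
theorem F_le (m d : ℕ) : F m d ≤ 1 / (d ! : ℝ) := by
  unfold F
  split_ifs with h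
  · have h1 := card_inc (⟨m - d, by omega⟩ : Fin (m + 1))
    have h2 : ((Z (⟨m - d, by omega⟩ : Fin (m + 1))).filter Rch).card ≤
        ((Z (⟨m - d, by omega⟩ : Fin (m + 1))).filter
          (Inc (⟨m - d, by omega⟩ : Fin (m + 1)))).card := by
      apply Finset.card_le_card
      intro π hπ
      rw [mem_filter] at hπ ⊢
      refine ⟨hπ.1, inc_of_rch π _ ?_ hπ.2⟩
      rw [(mem_Z _ _).1 hπ.1]; rfl
    simp only at h1
    rw [show m - (m - d) = d by omega] at h1
    have h3 : ((Z (⟨m - d, by omega⟩ : Fin (m + 1))).filter Rch).card * d ! ≤ m ! :=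
      (Nat.mul_le_mul_right _ h2).trans h1
    have h4 : (((Z (⟨m - d, by omega⟩ : Fin (m + 1))).filter Rch).card : ℝ) * (d ! : ℝ) ≤
        (m ! : ℝ) := by exact_mod_cast h3
    rw [div_le_div_iff₀ (by positivity) (by positivity)]
    linarith
  · positivity

open Classical in
theorem F_zero (m : ℕ) : F m 0 = 1 := by
  unfold F
  rw [dif_pos (by omega)]
  have h1 : (Z (⟨m - 0, by omega⟩ : Fin (m + 1))).filter Rch =
      Z (⟨m - 0, by omega⟩ : Fin (m + 1)) := by
    apply Finset.filter_true_of_mem
    intro π hπ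
    apply rch_of_last
    exact (mem_Z _ _).1 hπ
  rw [h1, card_Z]
  exact div_self (by positivity)

open Classical in
theorem F_bound (m d w : ℕ) (hd : 1 ≤ d) (hdw : d + 1 ≤ w) (hwm : w ≤ m) :
    F m d ≤ (d + 1 : ℝ) / w + (w : ℝ) * w / m := by
  unfold F
  rw [dif_pos (by omega)]
  set i : Fin (m + 1) := ⟨m - d, by omega⟩ with hi
  have h1 := card_good hd hdw hwm i (by simp [hi]; omega)
  have h2 := card_bad (by omega) hwm i
  have h3 : ((Z i).filter Rch).card ≤ ((Z i).filter (fun π => Good w π ∧ Rch π)).card +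
      ((Z i).filter (fun π => ¬ Good w π)).card := by
    refine le_trans (Finset.card_le_card ?_) (Finset.card_union_le _ _)
    intro π hπ
    rw [mem_filter] at hπ
    rw [mem_union, mem_filter, mem_filter]
    by_cases hg : Good w π
    · left; exact ⟨hπ.1, hg, hπ.2⟩
    · right; exact ⟨hπ.1, hg⟩
  have hw0 : (0 : ℝ) < w := by exact_mod_cast (by omega : 0 < w)
  have hm0 : (0 : ℝ) < m := by exact_mod_cast (by omega : 0 < m)
  have hf0 : (0 : ℝ) < (m ! : ℝ) := by positivity
  have h1' : (((Z i).filter (fun π => Good w π ∧ Rch π)).card : ℝ) / (m ! : ℝ) ≤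
      (d + 1 : ℝ) / w := by
    rw [div_le_div_iff₀ hf0 hw0]
    exact_mod_cast h1
  have h2' : (((Z i).filter (fun π => ¬ Good w π)).card : ℝ) / (m ! : ℝ) ≤
      (w : ℝ) * w / m := by
    rw [div_le_div_iff₀ hf0 hm0]
    exact_mod_cast h2
  have h3' : (((Z i).filter Rch).card : ℝ) ≤
      (((Z i).filter (fun π => Good w π ∧ Rch π)).card : ℝ) +
      (((Z i).filter (fun π => ¬ Good w π)).card : ℝ) := by exact_mod_cast h3
  calc _ ≤ ((((Z i).filter (fun π => Good w π ∧ Rch π)).card : ℝ) +
      (((Z i).filter (fun π => ¬ Good w π)).card : ℝ)) / (m ! : ℝ) := by gcongr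
    _ = _ := add_div _ _ _
    _ ≤ _ := add_le_add h1' h2'

theorem F_tendsto (d : ℕ) (hd : 1 ≤ d) : Tendsto (fun m => F m d) atTop (𝓝 0) := by
  rw [Metric.tendsto_atTop]
  intro ε hε
  obtain ⟨w, hw⟩ : ∃ w : ℕ, d + 1 ≤ w ∧ (d + 1 : ℝ) / w < ε / 2 := by
    obtain ⟨k, hk⟩ := exists_nat_gt ((d + 1 : ℝ) / (ε / 2))
    refine ⟨max k (d + 1), le_max_right _ _, ?_⟩
    have h1 : (k : ℝ) ≤ (max k (d + 1) : ℕ) := by exact_mod_cast le_max_left _ _
    have hpos : (0 : ℝ) < (max k (d + 1) : ℕ) := by
      exact_mod_cast lt_of_lt_of_le (Nat.succ_pos d) (le_max_right _ _)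
    rw [div_lt_iff₀ hpos]
    rw [div_lt_iff₀ (by positivity)] at hk
    nlinarith
  obtain ⟨N, hN⟩ := exists_nat_gt ((w : ℝ) * w / (ε / 2))
  refine ⟨max (max N w) 1, ?_⟩
  intro m hm
  have hmN : N ≤ m := (le_max_left _ _).trans ((le_max_left _ _).trans hm)
  have hmw : w ≤ m := (le_max_right _ _).trans ((le_max_left _ _).trans hm)
  have hm1 : 1 ≤ m := (le_max_right _ _).trans hm
  rw [Real.dist_eq, sub_zero, abs_of_nonneg (F_nonneg m d)]
  have h1 := F_bound m d w hd hw.1 hmw
  have hmpos : (0 : ℝ) < m := by exact_mod_cast hm1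
  have h2 : (w : ℝ) * w / m < ε / 2 := by
    rw [div_lt_iff₀ hmpos]
    rw [div_lt_iff₀ (by positivity)] at hN
    have : (N : ℝ) ≤ m := by exact_mod_cast hmN
    nlinarith
  linarith [hw.2]

theorem main_limit : Tendsto (fun m : ℕ => ((idTree (m + 1)).ncard : ℝ) / (m ! : ℝ)) atTop
    (𝓝 1) := by
  have h1 : ∀ m, ((idTree (m + 1)).ncard : ℝ) / (m ! : ℝ) = ∑' d, F m d := by
    intro m
    rw [ncard_eq, tsum_eq_sum]
    intro d hd
    rw [Finset.mem_range, not_lt] at hd
    unfold F
    rw [dif_neg (by omega)]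
  simp only [h1]
  have h2 : (1 : ℝ) = ∑' d : ℕ, (if d = 0 then (1 : ℝ) else 0) := by
    rw [tsum_ite_eq]
  rw [h2]
  apply tendsto_tsum_of_dominated_convergence (bound := fun d : ℕ => 1 / (d ! : ℝ))
  · have := Real.summable_pow_div_factorial 1
    simpa using this
  · intro d
    by_cases hd : d = 0
    · subst hd
      simp only [F_zero, if_true]
      exact tendsto_const_nhds
    · rw [if_neg hd]
      exact F_tendsto d (by omega)
  · refine Filter.Eventually.of_forall (fun m d => ?_)
    rw [Real.norm_eq_abs, abs_of_nonneg (F_nonneg m d)]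
    exact F_le m d

end R122.FF
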