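import Pool.Agent.R122.FF.PermCount

set_option autoImplicit false

namespace R122.FF

open Nat Finset

/-- a window letter -/
def win {n : ℕ} (w : ℕ) (x : Fin n) : Bool := decide (n ≤ (x : ℕ) + w)

/-- rank from the largest letter -/
def rk {n : ℕ} (x : Fin n) : ℕ := n - 1 - x

theorem win_iff {n w : ℕ} (x : Fin n) : win w x = true ↔ n ≤ (x : ℕ) + w := by simp [win]

theorem rk_inj {n : ℕ} : Function.Injective (rk : Fin n → ℕ) := by
  intro x y h
  unfold rk at h
  ext; omega

/-- list of the window letters in the upper part -/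
def UL {n : ℕ} (w : ℕ) (π : Equiv.Perm (Fin n)) : List (Fin n) :=
  ((List.ofFn π).take (n - w)).filter (win w)

def U0 {n : ℕ} (w : ℕ) (π : Equiv.Perm (Fin n)) : List ℕ := (UL w π).map rk

def B0 {n : ℕ} (w d : ℕ) (π : Equiv.Perm (Fin n)) : List ℕ :=
  (((List.ofFn π).drop (n - w)).take (w - d - 1)).map rk

/-- all window letters are at positions `< n - w` -/
def Good {n : ℕ} (w : ℕ) (π : Equiv.Perm (Fin n)) : Prop :=
  ∀ j : Fin n, win w (π j) = true → (j : ℕ) + w < n

theorem mem_UL {n w : ℕ} (π : Equiv.Perm (Fin n)) (hg : Good w π) (x : Fin n) :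
    x ∈ UL w π ↔ win w x = true := by
  unfold UL
  rw [List.mem_filter]
  constructor
  · exact fun h => h.2
  · intro h
    refine ⟨?_, h⟩
    have h1 := hg (π.symm x) (by simpa using h)
    rw [List.mem_take_iff_getElem]
    refine ⟨(π.symm x : ℕ), ?_, ?_⟩
    · rw [List.length_ofFn, lt_min_iff]; omega
    · simp

theorem UL_nodup {n w : ℕ} (π : Equiv.Perm (Fin n)) : (UL w π).Nodup := by
  unfold UL
  apply List.Nodup.filter
  exact (List.nodup_ofFn.2 π.injective).sublist (List.take_sublist _ _)

theorem U0_mem {n w : ℕ} (hwn : w < n) (π : Equiv.Perm (Fin n)) (hg : Good w π) :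
    U0 w π ∈ Ords w := by
  unfold U0
  rw [mem_Ords, List.perm_ext_iff_of_nodup ((UL_nodup π).map rk_inj) List.nodup_range]
  intro c
  rw [List.mem_range, List.mem_map]
  constructor
  · rintro ⟨x, hx, rfl⟩
    rw [mem_UL π hg, win_iff] at hx
    have := x.2
    unfold rk; omega
  · intro hc
    refine ⟨⟨n - 1 - c, by omega⟩, ?_, ?_⟩
    · rw [mem_UL π hg, win_iff]; simp; omega
    · unfold rk; simp; omega

/-- a permutation fixing the non-window letters -/
abbrev WFix (n w : ℕ) := {f : Equiv.Perm (Fin n) // ∀ a, ¬ (win w a = true) → f a = a}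

theorem WFix.win {n w : ℕ} (f : WFix n w) (x : Fin n) : win w (f.1 x) = win w x := by
  by_cases h : R122.FF.win w x = true
  · rw [h]
    by_contra hcon
    have h1 := f.2 _ hcon
    have h2 := f.1.injective h1
    rw [h2] at hcon
    exact hcon h
  · rw [f.2 x h]

theorem UL_mul {n w : ℕ} (f : WFix n w) (π : Equiv.Perm (Fin n)) :
    UL w (f.1 * π) = (UL w π).map f.1 := by
  unfold UL
  have h1 : List.ofFn (f.1 * π : Equiv.Perm (Fin n)) = (List.ofFn π).map f.1 := by
    rw [List.map_ofFn]; rfl
  rw [h1, ← List.map_take, List.filter_map]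
  congr 2
  funext x
  exact WFix.win f x

theorem B0_mul {n w d : ℕ} (f : WFix n w) (π : Equiv.Perm (Fin n)) (hg : Good w π) :
    B0 w d (f.1 * π) = B0 w d π := by
  unfold B0
  have h1 : List.ofFn (f.1 * π : Equiv.Perm (Fin n)) = (List.ofFn π).map f.1 := by
    rw [List.map_ofFn]; rfl
  rw [h1, ← List.map_drop, ← List.map_take, List.map_map]
  apply List.map_congr_left
  intro x hx
  have hx1 := List.mem_of_mem_take hx
  rw [List.mem_drop_iff_getElem] at hx1
  obtain ⟨j, hj, rfl⟩ := hx1
  rw [List.length_ofFn] at hj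
  rw [List.getElem_ofFn]
  have : ¬ (win w (π ⟨n - w + j, by omega⟩) = true) := by
    intro hw
    have := hg _ hw
    simp only at this
    omega
  rw [Function.comp_apply, f.2 _ this]

theorem good_mul {n w : ℕ} (f : WFix n w) (π : Equiv.Perm (Fin n)) :
    Good w (f.1 * π) ↔ Good w π := by
  unfold Good
  simp only [Equiv.Perm.mul_apply, WFix.win]

theorem B0_ge {n w d : ℕ} (π : Equiv.Perm (Fin n)) (hg : Good w π) (hd : d + 1 ≤ w)
    (hwn : w < n) : (∀ c ∈ B0 w d π, w ≤ c) ∧ (B0 w d π).length = w - d - 1 := by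
  constructor
  · intro c hc
    unfold B0 at hc
    rw [List.mem_map] at hc
    obtain ⟨x, hx, rfl⟩ := hc
    have hx1 := List.mem_of_mem_take hx
    rw [List.mem_drop_iff_getElem] at hx1
    obtain ⟨j, hj, rfl⟩ := hx1
    rw [List.length_ofFn] at hj
    rw [List.getElem_ofFn]
    have : ¬ (win w (π ⟨n - w + j, by omega⟩) = true) := by
      intro hw
      have := hg _ hw
      simp only at this
      omega
    rw [win_iff] at this
    unfold rk
    omega
  · unfold B0
    rw [List.length_map, List.length_take, List.length_drop, List.length_ofFn]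
    omega

theorem sv_of_rch {n d w : ℕ} (hwn : w < n) (hdw : d + 1 ≤ w)
    (π : Equiv.Perm (Fin n)) (i : Fin n) (hi : (i : ℕ) + d + 1 = n) (h0 : (π i : ℕ) = 0)
    (hg : Good w π) (h : Rch π) : Sv d w 0 (U0 w π) (B0 w d π) := by
  obtain ⟨t, ht⟩ := h
  have hs := word_split π i h0
  have htake : (word π).take i = (word π).take (n - w) ++
      ((word π).drop (n - w)).take (w - d - 1) := by
    rw [show (i : ℕ) = (n - w) + (w - d - 1) by omega, List.take_add]
  rw [htake] at hs
  rw [hs] at ht
  have hp := word_perm π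
  rw [hs] at hp
  have key := sim n d w t hwn ((word π).take (n - w)) (((word π).drop (n - w)).take (w - d - 1))
    ((word π).drop (i + 1)) 0 ht hp (by rw [List.length_take, word_length]; omega)
    (by rw [List.length_take, List.length_drop, word_length]; omega) (by
      intro v hv1 hv2
      rw [List.mem_append]
      left
      rw [List.mem_take_iff_getElem]
      set x : Fin n := ⟨v, by omega⟩ with hx
      have h1 := hg (π.symm x) (by rw [win_iff]; simp [hx]; omega)
      refine ⟨(π.symm x : ℕ), ?_, ?_⟩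
      · rw [word_length, lt_min_iff]; omega
      · rw [word_getElem]; simp [hx]) (by
      intro v hv
      have : v ∈ word π := by
        rw [hs]
        simp only [List.mem_append] at hv ⊢
        tauto
      rw [mem_word] at this
      omega)
  have e1 : (List.filter (fun v => decide (n ≤ v + w)) ((word π).take (n - w))).map
      (fun v => n - 1 - v) = U0 w π := by
    unfold U0 UL word
    rw [← List.map_take, List.filter_map, List.map_map]
    rfl
  have e2 : (((word π).drop (n - w)).take (w - d - 1)).map (fun v => n - 1 - v) = B0 w d π := by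
    unfold B0 word
    rw [← List.map_drop, ← List.map_take, List.map_map]
    rfl
  rw [e1, e2] at key
  exact key

open Classical in
theorem card_good {m d w : ℕ} (hd : 1 ≤ d) (hdw : d + 1 ≤ w) (hwm : w ≤ m) (i : Fin (m + 1))
    (hi : (i : ℕ) + d + 1 = m + 1) :
    ((Z i).filter (fun π => Good w π ∧ Rch π)).card * w ≤ (d + 1) * m ! := by
  have h := dc (Γ := WFix (m + 1) w) ((Z i).filter (Good w))
    (fun f => Equiv.mulLeft f.1) (by
      intro f a
      rw [mem_filter, mem_filter, mem_Z, mem_Z, Equiv.coe_mulLeft, good_mul,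
        Equiv.Perm.mul_apply]
      have h0 : f.1 0 = 0 := f.2 0 (by rw [win_iff]; simp; omega)
      constructor
      · rintro ⟨h1, h2⟩
        refine ⟨?_, h2⟩
        rw [← h0] at h1
        exact f.1.injective h1
      · rintro ⟨h1, h2⟩
        exact ⟨by rw [h1, h0], h2⟩)
    (fun π => Sv d w 0 (U0 w π) (B0 w d π)) ((d + 1) * (w - 1)!) (by
      intro π hπ
      rw [mem_filter] at hπ
      obtain ⟨hπ1, hπ2⟩ := hπ
      obtain ⟨hB1, hB2⟩ := B0_ge (d := d) π hπ2 hdw (by omega)
      have hc := count d hd (w - d - 1) (B0 w d π) hB2 (by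
        intro c hc
        rw [show d + 1 + (w - d - 1) = w by omega]; exact hB1 c hc)
      rw [show d + (w - d - 1) = w - 1 by omega] at hc
      refine le_trans ?_ hc
      refine Finset.card_le_card_of_injOn (fun f => U0 w (f.1 * π)) ?_ ?_
      · intro f hf
        have hf2 : Sv d w 0 (U0 w (f.1 * π)) (B0 w d (f.1 * π)) := (Finset.mem_filter.1 hf).2
        rw [B0_mul f π hπ2] at hf2
        simp only [coe_filter, Set.mem_ofPred_eq]
        rw [show d + 1 + (w - d - 1) = w by omega]
        exact ⟨U0_mem (by omega) _ ((good_mul f π).2 hπ2), hf2⟩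
      · intro f _ g _ hfg
        simp only [U0, UL_mul, List.map_map] at hfg
        rw [List.map_inj_left] at hfg
        apply Subtype.ext
        ext x
        by_cases hx : win w x = true
        · have := hfg x ((mem_UL π hπ2 x).2 hx)
          have := rk_inj this
          rw [this]
        · rw [f.2 x hx, g.2 x hx])
  rw [card_fix] at h
  have hcw : (univ.filter (fun a : Fin (m + 1) => win w a = true)).card = w := by
    have : (univ.filter (fun a : Fin (m + 1) => win w a = true)) =
        Finset.Ici (⟨m + 1 - w, by omega⟩ : Fin (m + 1)) := by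
      ext a
      rw [mem_filter, win_iff, Finset.mem_Ici, Fin.le_def]
      simp
    rw [this, Fin.card_Ici]
    show m + 1 - (m + 1 - w) = w
    omega
  rw [hcw] at h
  have hsub : ((Z i).filter (fun π => Good w π ∧ Rch π)).card ≤
      (((Z i).filter (Good w)).filter (fun π => Sv d w 0 (U0 w π) (B0 w d π))).card := by
    apply Finset.card_le_card
    intro π hπ
    rw [mem_filter] at hπ
    rw [mem_filter, mem_filter]
    have h0 : π i = 0 := (mem_Z i π).1 hπ.1
    exact ⟨⟨hπ.1, hπ.2.1⟩, sv_of_rch (by omega) hdw π i hi (by rw [h0]; rfl) hπ.2.1 hπ.2.2⟩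
  have hZ : ((Z i).filter (Good w)).card ≤ m ! := by
    rw [← card_Z i]; exact Finset.card_filter_le _ _
  have hw1 : w ! = w * (w - 1)! := (Nat.mul_factorial_pred (by omega)).symm
  have h3 : (((Z i).filter (fun π => Good w π ∧ Rch π)).card * w) * (w - 1)! ≤
      ((d + 1) * m !) * (w - 1)! := by
    calc _ = ((Z i).filter (fun π => Good w π ∧ Rch π)).card * w ! := by rw [hw1]; ring
      _ ≤ (((Z i).filter (Good w)).filter (fun π => Sv d w 0 (U0 w π) (B0 w d π))).card * w ! :=
        Nat.mul_le_mul_right _ hsub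
      _ ≤ (d + 1) * (w - 1)! * ((Z i).filter (Good w)).card := h
      _ ≤ (d + 1) * (w - 1)! * m ! := Nat.mul_le_mul_left _ hZ
      _ = _ := by ring
  exact Nat.le_of_mul_le_mul_right h3 (Nat.factorial_pos _)

open Classical in
theorem card_two {m : ℕ} (i j v : Fin (m + 1)) (hv : v ≠ 0) :
    ((Z i).filter (fun π => π j = v)).card * m ≤ m ! := by
  have h1 : ((univ : Finset (Fin (m + 1))).erase 0).card = m := by
    rw [Finset.card_erase_of_mem (mem_univ _), Finset.card_univ, Fintype.card_fin]; simp
  have h2 : ((Z i).filter (fun π => π j = v)).card * m =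
      (((Z i).filter (fun π => π j = v)) ×ˢ ((univ : Finset (Fin (m + 1))).erase 0)).card := by
    rw [Finset.card_product, h1]
  rw [← card_Z i, h2]
  refine Finset.card_le_card_of_injOn (fun q => Equiv.swap v q.2 * q.1) ?_ ?_
  · rintro ⟨π, u⟩ h
    simp only [coe_product, Set.mem_prod, mem_coe, mem_filter, mem_erase, mem_univ, and_true,
      mem_Z] at h ⊢
    rw [Equiv.Perm.mul_apply, h.1.1]
    exact Equiv.swap_apply_of_ne_of_ne hv.symm (Ne.symm h.2)
  · rintro ⟨π, u⟩ h ⟨π', u'⟩ h' heq
    simp only [coe_product, Set.mem_prod, mem_coe, mem_filter, mem_erase, mem_univ, and_true,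
      mem_Z] at h h' heq
    have e := congrArg (fun f : Equiv.Perm (Fin (m + 1)) => f j) heq
    simp only [Equiv.Perm.mul_apply] at e
    rw [h.1.2, h'.1.2, Equiv.swap_apply_left, Equiv.swap_apply_left] at e
    subst e
    have := mul_left_cancel heq
    rw [this]

open Classical in
theorem card_bad {m w : ℕ} (hw : 1 ≤ w) (hwm : w ≤ m) (i : Fin (m + 1)) :
    ((Z i).filter (fun π => ¬ Good w π)).card * m ≤ w * w * m ! := by
  set J : Finset (Fin (m + 1)) := Finset.Ici (⟨m + 1 - w, by omega⟩ : Fin (m + 1)) with hJ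
  have hJc : J.card ≤ w := by
    rw [hJ, Fin.card_Ici]
    show m + 1 - (m + 1 - w) ≤ w
    omega
  have hsub : (Z i).filter (fun π => ¬ Good w π) ⊆
      (J ×ˢ J).biUnion (fun q => if q.2 = 0 then ∅ else (Z i).filter (fun π => π q.1 = q.2)) := by
    intro π hπ
    rw [mem_filter] at hπ
    obtain ⟨h1, h2⟩ := hπ
    unfold Good at h2
    push Not at h2
    obtain ⟨j, hj1, hj2⟩ := h2
    rw [mem_biUnion]
    refine ⟨(j, π j), ?_, ?_⟩
    · rw [win_iff] at hj1
      rw [mem_product, hJ, Finset.mem_Ici, Finset.mem_Ici, Fin.le_def, Fin.le_def]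
      simp only
      omega
    · have : π j ≠ 0 := by
        intro h0
        rw [h0, win_iff] at hj1
        simp at hj1; omega
      rw [if_neg this, mem_filter]
      exact ⟨h1, rfl⟩
  have h3 : ∀ q ∈ J ×ˢ J, (if q.2 = 0 then (∅ : Finset (Equiv.Perm (Fin (m + 1))))
      else (Z i).filter (fun π => π q.1 = q.2)).card * m ≤ m ! := by
    intro q _
    split_ifs with h
    · simp
    · exact card_two i q.1 q.2 h
  calc _ ≤ ((J ×ˢ J).biUnion (fun q => if q.2 = 0 then ∅
        else (Z i).filter (fun π => π q.1 = q.2))).card * m :=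
        Nat.mul_le_mul_right _ (Finset.card_le_card hsub)
    _ ≤ (∑ q ∈ J ×ˢ J, (if q.2 = 0 then (∅ : Finset (Equiv.Perm (Fin (m + 1))))
        else (Z i).filter (fun π => π q.1 = q.2)).card) * m :=
        Nat.mul_le_mul_right _ Finset.card_biUnion_le
    _ = ∑ q ∈ J ×ˢ J, (if q.2 = 0 then (∅ : Finset (Equiv.Perm (Fin (m + 1))))
        else (Z i).filter (fun π => π q.1 = q.2)).card * m := by rw [Finset.sum_mul]
    _ ≤ ∑ q ∈ J ×ˢ J, m ! := Finset.sum_le_sum h3
    _ = (J.card * J.card) * m ! := by
        rw [Finset.sum_const, Finset.card_product, smul_eq_mul]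
    _ ≤ w * w * m ! := Nat.mul_le_mul_right _ (Nat.mul_le_mul hJc hJc)

end R122.FF
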