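import Pool.Agent.R122.FF.Real

set_option autoImplicit false

/-!
Counting permutations that reach the identity.
-/

namespace R122.FF

open Nat Finset

/-- the word of a permutation -/
def word {n : ℕ} (π : Equiv.Perm (Fin n)) : List ℕ := (List.ofFn π).map Fin.val

theorem word_length {n : ℕ} (π : Equiv.Perm (Fin n)) : (word π).length = n := by
  simp [word]

theorem word_getElem {n : ℕ} (π : Equiv.Perm (Fin n)) (i : ℕ) (hi : i < (word π).length) :
    (word π)[i] = (π ⟨i, by rwa [word_length] at hi⟩ : ℕ) := by
  simp [word]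

theorem mem_word {n : ℕ} (π : Equiv.Perm (Fin n)) (x : ℕ) : x ∈ word π ↔ x < n := by
  simp only [word, List.mem_map, List.mem_ofFn]
  constructor
  · rintro ⟨a, _, rfl⟩; exact a.2
  · intro h; exact ⟨⟨x, h⟩, ⟨π.symm ⟨x, h⟩, by simp⟩, rfl⟩

theorem word_nodup {n : ℕ} (π : Equiv.Perm (Fin n)) : (word π).Nodup := by
  unfold word
  exact (List.nodup_ofFn.2 π.injective).map Fin.val_injective

theorem word_perm {n : ℕ} (π : Equiv.Perm (Fin n)) : (word π).Perm (List.range n) := by
  rw [List.perm_ext_iff_of_nodup (word_nodup π) List.nodup_range]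
  intro a; rw [mem_word, List.mem_range]

theorem word_split {n : ℕ} (π : Equiv.Perm (Fin n)) (i : Fin n) (hi : (π i : ℕ) = 0) :
    word π = (word π).take i ++ 0 :: (word π).drop (i + 1) := by
  have h1 : (i : ℕ) < (word π).length := by rw [word_length]; exact i.2
  conv_lhs => rw [← List.take_append_drop i (word π)]
  rw [List.drop_eq_getElem_cons h1, word_getElem]
  congr 2

theorem zero_notMem_take {n : ℕ} (π : Equiv.Perm (Fin n)) (i : Fin n) (hi : (π i : ℕ) = 0) :
    0 ∉ (word π).take i := by
  intro h
  have hnd := word_nodup π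
  rw [word_split π i hi, List.nodup_append] at hnd
  exact hnd.2.2 0 h 0 (by simp) rfl

/-- The permutation is in the identity tree (word formulation). -/
def Rch {n : ℕ} (π : Equiv.Perm (Fin n)) : Prop := ∃ t, par^[t] (word π) = List.range n

theorem rch_of_last {m : ℕ} (π : Equiv.Perm (Fin (m + 1))) (h : π (Fin.last m) = 0) :
    Rch π := by
  have h0 : (π (Fin.last m) : ℕ) = 0 := by rw [h]; rfl
  have hs := word_split π (Fin.last m) h0
  have hd : (word π).drop ((Fin.last m : ℕ) + 1) = [] := by
    apply List.drop_eq_nil_of_le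
    rw [word_length]; simp
  rw [hd] at hs
  have hp := word_perm π
  rw [hs, List.range_succ_eq_map] at hp
  have hp2 : (0 :: (word π).take (Fin.last m : ℕ)).Perm (0 :: List.map Nat.succ (List.range m)) :=
    List.perm_append_comm.trans hp
  obtain ⟨t, ht⟩ := reach_last m _ [] hp2.cons_inv
  refine ⟨t, ?_⟩
  rw [hs, ht, List.append_nil]

/-- increasing after position `i` -/
def Inc {n : ℕ} (i : Fin n) (π : Equiv.Perm (Fin n)) : Prop := ∀ j k, i < j → j < k → π j < π k

theorem inc_of_rch {n : ℕ} (π : Equiv.Perm (Fin n)) (i : Fin n) (hi : (π i : ℕ) = 0)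
    (h : Rch π) : Inc i π := by
  obtain ⟨t, ht⟩ := h
  rw [word_split π i hi] at ht
  have hs := sorted_of_reach n t _ _ (zero_notMem_take π i hi) ht
  intro j k hj hk
  rw [List.pairwise_iff_getElem] at hs
  have hj' : (i : ℕ) + 1 + (j - (i + 1)) = j := by
    have : (i : ℕ) < j := hj
    omega
  have hk' : (i : ℕ) + 1 + (k - (i + 1)) = k := by
    have : (i : ℕ) < j := hj
    have : (j : ℕ) < k := hk
    omega
  have := hs (j - (i + 1)) (k - (i + 1)) (by
      rw [List.length_drop, word_length]; have : (i : ℕ) < j := hj; omega) (by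
      rw [List.length_drop, word_length]
      have : (i : ℕ) < j := hj
      have : (j : ℕ) < k := hk
      omega) (by
      have : (i : ℕ) < j := hj
      have : (j : ℕ) < k := hk
      omega)
  rw [List.getElem_drop, List.getElem_drop, word_getElem, word_getElem] at this
  simp only [hj', hk'] at this
  exact this

/-- double counting -/
theorem dc {α Γ : Type*} [Fintype Γ] [DecidableEq α] (Ω : Finset α) (e : Γ → Equiv.Perm α)
    (hΩ : ∀ g a, e g a ∈ Ω ↔ a ∈ Ω) (p : α → Prop) [DecidablePred p] (c : ℕ)
    (hc : ∀ a ∈ Ω, (univ.filter (fun g => p (e g a))).card ≤ c) :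
    (Ω.filter p).card * Fintype.card Γ ≤ c * Ω.card := by
  have h1 : ∀ g : Γ, (Ω.filter (fun a => p (e g a))).card = (Ω.filter p).card := by
    intro g
    refine Finset.card_bij (fun a _ => e g a) ?_ ?_ ?_
    · intro a ha
      rw [mem_filter] at ha ⊢
      exact ⟨(hΩ g a).2 ha.1, ha.2⟩
    · intro a _ b _ h; exact (e g).injective h
    · intro b hb
      rw [mem_filter] at hb
      refine ⟨(e g).symm b, ?_, by simp⟩
      rw [mem_filter]
      refine ⟨?_, by simpa using hb.2⟩
      rw [← hΩ g]; simpa using hb.1
  calc (Ω.filter p).card * Fintype.card Γ = ∑ g : Γ, (Ω.filter (fun a => p (e g a))).card := by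
        rw [Finset.sum_congr rfl (fun g _ => h1 g)]
        rw [Finset.sum_const, smul_eq_mul, mul_comm, Finset.card_univ]
    _ = ∑ g : Γ, ∑ a ∈ Ω, if p (e g a) then 1 else 0 := by
        refine Finset.sum_congr rfl (fun g _ => ?_)
        rw [Finset.card_filter]
    _ = ∑ a ∈ Ω, ∑ g : Γ, if p (e g a) then 1 else 0 := Finset.sum_comm
    _ ≤ ∑ a ∈ Ω, c := by
        refine Finset.sum_le_sum (fun a ha => ?_)
        rw [← Finset.card_filter]
        exact hc a ha
    _ = c * Ω.card := by rw [Finset.sum_const, smul_eq_mul, mul_comm]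

/-- permutations with `0` at position `i` -/
def Z {m : ℕ} (i : Fin (m + 1)) : Finset (Equiv.Perm (Fin (m + 1))) :=
  univ.filter (fun π => π i = 0)

theorem mem_Z {m : ℕ} (i : Fin (m + 1)) (π : Equiv.Perm (Fin (m + 1))) : π ∈ Z i ↔ π i = 0 := by
  simp [Z]

theorem card_Z {m : ℕ} (i : Fin (m + 1)) : (Z i).card = m ! := by
  have h1 : (Z i).card = (univ : Finset (Equiv.Perm (Fin m))).card := by
    symm
    refine Finset.card_bij (fun e _ => (Equiv.Perm.decomposeFin.symm (i, e))⁻¹) ?_ ?_ ?_
    · intro e _
      rw [mem_Z]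
      rw [Equiv.Perm.inv_eq_iff_eq]
      simp
    · intro a _ b _ h
      have := inv_injective h
      have := Equiv.Perm.decomposeFin.symm.injective this
      simpa using this
    · intro π hπ
      rw [mem_Z] at hπ
      refine ⟨(Equiv.Perm.decomposeFin π⁻¹).2, mem_univ _, ?_⟩
      rw [inv_eq_iff_eq_inv]
      rw [Equiv.symm_apply_eq]
      have h2 : (Equiv.Perm.decomposeFin π⁻¹).1 = i := by
        have h3 := Equiv.Perm.decomposeFin_symm_apply_zero (Equiv.Perm.decomposeFin π⁻¹).1
          (Equiv.Perm.decomposeFin π⁻¹).2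
        rw [Prod.mk.eta, Equiv.symm_apply_apply] at h3
        rw [← h3, Equiv.Perm.inv_eq_iff_eq]
        exact hπ.symm
      rw [← h2]
  rw [h1, Finset.card_univ, Fintype.card_perm, Fintype.card_fin]

theorem card_fix {n : ℕ} (p : Fin n → Prop) [DecidablePred p] :
    Fintype.card {f : Equiv.Perm (Fin n) // ∀ a, ¬ p a → f a = a} =
      ((univ.filter p).card)! := by
  rw [← Fintype.card_congr (Equiv.Perm.subtypeEquivSubtypePerm p), Fintype.card_perm,
    Fintype.card_subtype]

open Classical in
theorem card_inc {m : ℕ} (i : Fin (m + 1)) :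
    ((Z i).filter (Inc i)).card * (m - i)! ≤ m ! := by
  have h := dc (Γ := {f : Equiv.Perm (Fin (m + 1)) // ∀ a, ¬ i < a → f a = a}) (Z i)
    (fun f => Equiv.mulRight f.1) (by
      intro g a
      rw [mem_Z, mem_Z, Equiv.coe_mulRight, Equiv.Perm.mul_apply, g.2 i (lt_irrefl i)])
    (Inc i) 1 (by
      intro π _
      rw [Finset.card_le_one]
      intro f hf g hg
      have hf : Inc i (π * f.1) := (Finset.mem_filter.1 hf).2
      have hg : Inc i (π * g.1) := (Finset.mem_filter.1 hg).2
      have key : (f.1⁻¹ * g.1 : Equiv.Perm (Fin (m + 1))) = 1 := by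
        set τ := (f.1⁻¹ * g.1 : Equiv.Perm (Fin (m + 1))) with hτ
        have hfix : ∀ a, ¬ i < a → τ a = a := by
          intro a ha
          rw [hτ, Equiv.Perm.mul_apply, g.2 a ha, Equiv.Perm.inv_eq_iff_eq, f.2 a ha]
        have hgt : ∀ a, i < a → i < τ a := by
          intro a ha
          by_contra hcon
          have h1 := hfix _ hcon
          have h2 := τ.injective h1
          rw [h2] at hcon
          exact hcon ha
        have hmono : StrictMono τ := by
          intro j k hjk
          by_cases hj : i < j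
          · have hk : i < k := hj.trans hjk
            by_contra hcon
            push Not at hcon
            have e1 : ∀ a, (π * f.1) (τ a) = (π * g.1) a := by
              intro a
              rw [hτ]; simp [Equiv.Perm.mul_apply]
            have h2 := hg j k hj hjk
            rw [← e1 j, ← e1 k] at h2
            rcases hcon.lt_or_eq with h3 | h3
            · exact absurd (hf _ _ (hgt k hk) h3) (not_lt.2 h2.le)
            · rw [h3] at h2; exact lt_irrefl _ h2
          · rw [hfix j hj]
            by_cases hk : i < k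
            · exact lt_of_le_of_lt (not_lt.1 hj) (hgt k hk)
            · rw [hfix k hk]; exact hjk
        have : (τ : Fin (m + 1) → Fin (m + 1)) = id := by
          rw [← StrictMono.range_inj hmono strictMono_id]
          rw [Set.range_id, τ.surjective.range_eq]
        ext x
        rw [this]; rfl
      apply Subtype.ext
      rw [inv_mul_eq_one] at key
      exact key)
  rw [card_fix, card_Z, one_mul] at h
  have h2 : (univ.filter (fun a : Fin (m + 1) => i < a)).card = m - i := by
    have : (univ.filter (fun a : Fin (m + 1) => i < a)) = Finset.Ioi i := by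
      ext a; simp
    rw [this, Fin.card_Ioi]; omega
  rw [h2] at h
  exact h

end R122.FF
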