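import Pool.Agent.R122.FF.Count

set_option autoImplicit false

/-!
The parent step on words and its relation to the abstract queue process.
-/

namespace R122.FF

/-- parent step on words: the first letter `k ≠ 0` is moved to index `k` -/
def par : List ℕ → List ℕ
  | [] => []
  | k :: l => if k = 0 then k :: l else ins k k l

theorem par_zero_cons (l : List ℕ) : par (0 :: l) = 0 :: l := by simp [par]

theorem par_cons (k : ℕ) (hk : k ≠ 0) (l : List ℕ) : par (k :: l) = ins k k l := by simp [par, hk]

theorem sublist_ins (i a : ℕ) (l : List ℕ) : l.Sublist (ins i a l) := by
  conv_lhs => rw [← List.take_append_drop i l]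
  exact List.Sublist.append_left (List.sublist_cons_self _ _) _

theorem map_ins (f : ℕ → ℕ) (i a : ℕ) (l : List ℕ) :
    (ins i a l).map f = ins i (f a) (l.map f) := by
  simp [ins, List.map_take, List.map_drop]

theorem filter_ins_neg (p : ℕ → Bool) (i a : ℕ) (l : List ℕ) (h : p a = false) :
    (ins i a l).filter p = l.filter p := by
  unfold ins
  rw [List.filter_append, List.filter_cons_of_neg (by simp [h]), ← List.filter_append,
    List.take_append_drop]

/-- the letters after `0` are increasing -/
theorem sorted_of_reach (n t : ℕ) : ∀ A C : List ℕ, 0 ∉ A →
    par^[t] (A ++ 0 :: C) = List.range n → C.Pairwise (· < ·) := by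
  induction t with
  | zero =>
    intro A C _ h
    rw [Function.iterate_zero, id_eq] at h
    have h1 : (List.range n).Pairwise (· < ·) := List.pairwise_lt_range
    rw [← h] at h1
    refine h1.sublist ?_
    exact (List.sublist_cons_self _ _).trans (List.sublist_append_right _ _)
  | succ t ih =>
    intro A C hA h
    rw [Function.iterate_succ_apply] at h
    cases A with
    | nil =>
      rw [List.nil_append, par_zero_cons] at h
      exact ih [] C (by simp) h
    | cons k A' =>
      have hk : k ≠ 0 := by rintro rfl; simp at hA
      have hA' : 0 ∉ A' := fun h => hA (by simp [h])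
      rw [List.cons_append, par_cons k hk] at h
      by_cases hle : k ≤ A'.length
      · rw [ins_append_left _ _ _ _ hle] at h
        refine ih _ C ?_ h
        rw [mem_ins]; push Not; exact ⟨hk.symm, hA'⟩
      · obtain ⟨j, hj⟩ : ∃ j, k = (A' ++ [0]).length + j := ⟨k - (A'.length + 1), by simp; omega⟩
        have e : ins k k (A' ++ 0 :: C) = A' ++ 0 :: ins j k C := by
          have := ins_append_right j k (A' ++ [0]) C
          rw [← hj] at this
          simpa using this
        rw [e] at h
        exact (ih _ _ hA' h).sublist (sublist_ins _ _ _)

theorem sim (n d w t : ℕ) (hwn : w < n) : ∀ (P Q C : List ℕ) (s : ℕ),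
    par^[t] (P ++ Q ++ 0 :: C) = List.range n → (P ++ Q ++ 0 :: C).Perm (List.range n) →
    P.length + w = n → Q.length + s + d + 1 = w →
    (∀ v, n ≤ v + w → v + s < n → v ∈ P ++ Q) → (∀ v ∈ P ++ Q, v + s < n) →
    Sv d w s ((P.filter (fun v => n ≤ v + w)).map (fun v => n - 1 - v))
      (Q.map (fun v => n - 1 - v)) := by
  induction t with
  | zero =>
    intro P Q C s h hperm hP hQ hall hlt
    rw [Function.iterate_zero, id_eq] at h
    exfalso
    have hnd : (P ++ Q ++ 0 :: C).Nodup := hperm.nodup_iff.2 List.nodup_range
    cases P with
    | nil => simp at hP; omega
    | cons a P' =>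
      obtain ⟨m, rfl⟩ : ∃ m, n = m + 1 := ⟨n - 1, by omega⟩
      rw [List.range_succ_eq_map] at h
      simp only [List.cons_append, List.cons.injEq] at h
      obtain ⟨rfl, _⟩ := h
      simp at hnd
  | succ t ih =>
    intro P Q C s h hperm hP hQ hall hlt
    rw [Function.iterate_succ_apply] at h
    have hnd : (P ++ Q ++ 0 :: C).Nodup := hperm.nodup_iff.2 List.nodup_range
    cases P with
    | nil => simp at hP; omega
    | cons v P' =>
      have hv0 : v ≠ 0 := by
        rintro rfl
        simp at hnd
      have hvs : v + s < n := hlt v (by simp)
      have h0 : 0 ∉ P' ++ Q := by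
        intro h0
        rw [List.cons_append, List.cons_append, List.nodup_cons, List.nodup_append] at hnd
        exact hnd.2.2.2 0 h0 0 (by simp) rfl
      simp only [List.length_cons] at hP
      rw [List.cons_append, List.cons_append, par_cons v hv0] at h
      by_cases hsmall : v + w < n
      · -- small letter
        have hle : v ≤ P'.length := by omega
        have e : ins v v (P' ++ Q ++ 0 :: C) = ins v v P' ++ Q ++ 0 :: C := by
          rw [List.append_assoc, ins_append_left _ _ _ _ hle, List.append_assoc]
        rw [e] at h
        have hp2 : (ins v v P' ++ Q ++ 0 :: C).Perm (v :: P' ++ Q ++ 0 :: C) :=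
          ((ins_perm v v P').append_right Q).append_right _
        have hmem : ∀ x, x ∈ ins v v P' ++ Q ↔ x ∈ v :: P' ++ Q := by
          intro x; simp only [List.mem_append, mem_ins, List.mem_cons]
        have := ih (ins v v P') Q C s h (hp2.trans hperm) (by rw [ins_length]; omega) hQ
          (fun x h1 h2 => (hmem x).2 (hall x h1 h2)) (fun x hx => hlt x ((hmem x).1 hx))
        rw [filter_ins_neg _ _ _ _ (by simp; omega)] at this
        rw [List.filter_cons_of_neg (by simp; omega)]
        exact this
      · push Not at hsmall
        rw [List.filter_cons_of_pos (by simp; omega), List.map_cons]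
        by_cases hsafe : v < P'.length + 1 + Q.length
        · -- safe letter
          cases Q with
          | nil => simp at hsafe; omega
          | cons q Q' =>
            simp only [List.length_cons] at hQ hsafe
            obtain ⟨j, hj⟩ : ∃ j, v = (P' ++ [q]).length + j :=
              ⟨v - (P'.length + 1), by simp; omega⟩
            have hj' : v = P'.length + 1 + j := by rw [hj]; simp
            have e : ins v v (P' ++ q :: Q' ++ 0 :: C) = (P' ++ [q]) ++ ins j v Q' ++ 0 :: C := by
              have h1 := ins_append_right j v (P' ++ [q]) (Q' ++ 0 :: C)
              rw [← hj, ins_append_left j v Q' _ (by omega)] at h1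
              simpa using h1
            rw [e] at h
            have hp2 : ((P' ++ [q]) ++ ins j v Q' ++ 0 :: C).Perm
                (v :: P' ++ q :: Q' ++ 0 :: C) := by
              apply List.Perm.append_right
              have h1 : ((P' ++ [q]) ++ ins j v Q').Perm ((P' ++ [q]) ++ v :: Q') :=
                (ins_perm j v Q').append_left _
              refine h1.trans ?_
              refine List.perm_middle.trans ?_
              simp
            have hmem : ∀ x, x ∈ (P' ++ [q]) ++ ins j v Q' ↔ x ∈ v :: P' ++ q :: Q' := by
              intro x
              simp only [List.mem_append, mem_ins, List.mem_cons, List.not_mem_nil, or_false]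
              tauto
            have := ih (P' ++ [q]) (ins j v Q') C s h (hp2.trans hperm) (by simp; omega)
              (by rw [ins_length]; omega)
              (fun x h1 h2 => (hmem x).2 (hall x h1 h2)) (fun x hx => hlt x ((hmem x).1 hx))
            rw [List.map_cons]
            apply Sv.safe
            · omega
            · rw [List.filter_append, List.map_append, map_ins] at this
              have e2 : ltr w (n - 1 - q) = (List.filter (fun v => decide (n ≤ v + w)) [q]).map
                  (fun v => n - 1 - v) := by
                unfold ltr
                by_cases hq : n ≤ q + w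
                · rw [if_pos (by omega), List.filter_cons_of_pos (by simpa using hq)]; simp
                · rw [if_neg (by omega), List.filter_cons_of_neg (by simpa using hq)]; simp
              rw [e2, show w - 1 - (n - 1 - v) = j by omega]
              exact this
        · -- the letter is inserted below
          push Not at hsafe
          obtain ⟨j, hj⟩ : ∃ j, v = ((P' ++ Q) ++ [0]).length + j :=
            ⟨v - (P'.length + Q.length + 1), by simp; omega⟩
          have hj' : v = P'.length + Q.length + 1 + j := by
            rw [hj]; simp only [List.length_append, List.length_singleton]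
          have e : ins v v (P' ++ Q ++ 0 :: C) = P' ++ Q ++ 0 :: ins j v C := by
            have h1 := ins_append_right j v ((P' ++ Q) ++ [0]) C
            rw [← hj] at h1
            simpa using h1
          rw [e] at h
          have hsort := sorted_of_reach n t _ _ h0 h
          have hlen : P'.length + 1 + Q.length + (C.length + 1) = n := by
            have := hperm.length_eq
            simp only [List.length_append, List.length_cons, List.length_range] at this
            omega
          have hvn : v + s + 1 = n := by
            by_contra hne
            have hu : n - 1 - s ∈ v :: P' ++ Q := hall _ (by omega) (by omega)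
            have hD : (C.drop j).toFinset = Finset.Ioo v n := by
              unfold ins at hsort
              rw [List.pairwise_append, List.pairwise_cons] at hsort
              apply Finset.eq_of_subset_of_card_le
              · intro x hx
                rw [List.mem_toFinset] at hx
                rw [Finset.mem_Ioo]
                refine ⟨hsort.2.1.1 x hx, ?_⟩
                have : x ∈ v :: P' ++ Q ++ 0 :: C := by
                  have := List.mem_of_mem_drop hx
                  simp [this]
                simpa using hperm.mem_iff.1 this
              · have hnd2 : (C.drop j).Nodup := by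
                  have := hsort.2.1.2
                  exact this.imp (fun h => ne_of_lt h)
                rw [List.toFinset_card_of_nodup hnd2, List.length_drop, Nat.card_Ioo]
                omega
            have hu2 : n - 1 - s ∈ C := by
              have : n - 1 - s ∈ Finset.Ioo v n := by rw [Finset.mem_Ioo]; omega
              rw [← hD, List.mem_toFinset] at this
              exact List.mem_of_mem_drop this
            rw [List.nodup_append] at hnd
            exact hnd.2.2 _ hu _ (by simp [hu2]) rfl
          have hvr : n - 1 - v = s := by omega
          rw [hvr]
          cases Q with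
          | nil => exact Sv.last _ _
          | cons q Q' =>
            simp only [List.length_cons] at hQ hlen
            rw [List.map_cons]
            apply Sv.need
            have hp2 : ((P' ++ [q]) ++ Q' ++ 0 :: ins j v C).Perm
                (v :: P' ++ q :: Q' ++ 0 :: C) := by
              have h1 : ((P' ++ [q]) ++ Q' ++ 0 :: ins j v C).Perm
                  ((P' ++ [q]) ++ Q' ++ 0 :: v :: C) :=
                ((ins_perm j v C).cons 0).append_left _
              refine h1.trans ?_
              have h2 : ((P' ++ [q]) ++ Q' ++ 0 :: v :: C) =
                  ((P' ++ q :: Q' ++ [0]) ++ v :: C) := by simp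
              rw [h2]
              refine List.perm_middle.trans ?_
              simp
            have hvnot : ∀ x ∈ P' ++ [q] ++ Q', x ≠ v := by
              intro x hx hxv
              rw [hxv] at hx
              rw [List.cons_append, List.cons_append, List.nodup_cons] at hnd
              apply hnd.1
              simp only [List.mem_append, List.mem_cons, List.not_mem_nil, or_false] at hx ⊢
              tauto
            have := ih (P' ++ [q]) Q' (ins j v C) (s + 1)
              (by rw [← h]; simp) (hp2.trans hperm) (by simp; omega) (by omega)
              (by
                intro x h1 h2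
                have h3 := hall x h1 (by omega)
                have h4 : x ≠ v := by omega
                simp only [List.mem_append, List.mem_cons, List.not_mem_nil, or_false] at h3 ⊢
                tauto)
              (by
                intro x hx
                have h4 := hvnot x hx
                have h3 := hlt x (by
                  simp only [List.mem_append, List.mem_cons, List.not_mem_nil, or_false] at hx ⊢
                  tauto)
                omega)
            rw [List.filter_append, List.map_append] at this
            have e2 : ltr w (n - 1 - q) = (List.filter (fun v => decide (n ≤ v + w)) [q]).map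
                (fun v => n - 1 - v) := by
              unfold ltr
              by_cases hq : n ≤ q + w
              · rw [if_pos (by omega), List.filter_cons_of_pos (by simpa using hq)]; simp
              · rw [if_neg (by omega), List.filter_cons_of_neg (by simpa using hq)]; simp
            rw [e2]
            exact this

/-- some letter `≥ p + 1` surfaces among `p + 1` distinct nonzero letters -/
theorem surf (p : ℕ) : ∀ P : List ℕ, P.length = p + 1 → P.Nodup → (∀ x ∈ P, x ≠ 0) →
    ∀ R : List ℕ, ∃ t h P', par^[t] (P ++ R) = h :: (P' ++ R) ∧ p + 1 ≤ h ∧
      (h :: P').Perm P := by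
  induction p with
  | zero =>
    intro P hP _ h0 R
    obtain ⟨z, rfl⟩ := List.length_eq_one_iff.1 hP
    exact ⟨0, z, [], rfl, by have := h0 z (by simp); omega, List.Perm.refl _⟩
  | succ p ih =>
    intro P hP hnd h0 R
    obtain ⟨P0, z, rfl⟩ : ∃ P0 z, P = P0 ++ [z] := by
      have hne : P ≠ [] := by rintro rfl; simp at hP
      exact ⟨P.dropLast, P.getLast hne, (List.dropLast_append_getLast hne).symm⟩
    have hP0 : P0.length = p + 1 := by simpa using hP
    obtain ⟨t1, h1, P1, e1, hh1, p1⟩ := ih P0 hP0 (List.Nodup.of_append_left hnd)
      (fun x hx => h0 x (by simp [hx])) ([z] ++ R)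
    have hP1 : P1.length = p := by
      have := p1.length_eq; simp at this; omega
    by_cases hbig : p + 2 ≤ h1
    · refine ⟨t1, h1, P1 ++ [z], ?_, hbig, ?_⟩
      · rw [List.append_assoc, e1]; simp
      · exact p1.append_right [z]
    · have hh : h1 = p + 1 := by omega
      subst hh
      have hperm : ((p + 1) :: (P1 ++ [z])).Perm (P0 ++ [z]) := p1.append_right [z]
      have hnd2 : ((p + 1) :: (P1 ++ [z])).Nodup := hperm.nodup_iff.2 hnd
      rw [List.nodup_cons] at hnd2
      obtain ⟨t2, h2, P2, e2, hh2, p2⟩ := ih (P1 ++ [z]) (by simp [hP1]) hnd2.2
        (fun x hx => h0 x (by
          rw [← hperm.mem_iff]; simp only [List.mem_cons]; right; exact hx)) ((p + 1) :: R)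
      have hne : h2 ≠ p + 1 := by
        rintro rfl
        apply hnd2.1
        rw [← p2.mem_iff]; simp
      refine ⟨t2 + (1 + t1), h2, P2 ++ [p + 1], ?_, by omega, ?_⟩
      · rw [Function.iterate_add_apply, Function.iterate_add_apply, List.append_assoc, e1,
          Function.iterate_one, par_cons _ (by omega)]
        have : ins (p + 1) (p + 1) (P1 ++ ([z] ++ R)) = (P1 ++ [z]) ++ (p + 1) :: R := by
          have h3 := ins_append_right 0 (p + 1) (P1 ++ [z]) R
          rw [Nat.add_zero, ins_zero] at h3
          rw [← List.append_assoc]
          rw [← h3]
          congr 1
          simp [hP1]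
        rw [this, e2]
        simp
      · have h3 : (h2 :: (P2 ++ [p + 1])).Perm ((P1 ++ [z]) ++ [p + 1]) := p2.append_right _
        refine h3.trans ?_
        refine List.perm_append_comm.trans ?_
        exact hperm

theorem reach_last (m : ℕ) : ∀ A C : List ℕ, A.Perm ((List.range m).map (· + 1)) →
    ∃ t, par^[t] (A ++ 0 :: C) = List.range (m + 1) ++ C := by
  induction m with
  | zero =>
    intro A C hA
    simp only [List.range_zero, List.map_nil, List.perm_nil] at hA
    subst hA
    exact ⟨0, by simp [List.range_succ]⟩
  | succ m ih =>
    intro A C hA
    have hlen : A.length = m + 1 := by rw [hA.length_eq]; simp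
    have hnd : A.Nodup := by
      rw [hA.nodup_iff]
      exact List.Nodup.map (fun a b h => by simpa using h) List.nodup_range
    obtain ⟨t1, h, P', e1, hh, p1⟩ := surf m A hlen hnd
      (by intro x hx; rw [hA.mem_iff] at hx; simp at hx; omega) (0 :: C)
    have hhA : h ∈ A := by rw [← p1.mem_iff]; simp
    have hh2 : h = m + 1 := by
      rw [hA.mem_iff] at hhA; simp at hhA; omega
    subst hh2
    have hP' : P'.length = m := by
      have := p1.length_eq; simp at this; omega
    have hP'perm : P'.Perm ((List.range m).map (· + 1)) := by
      have h2 : ((m + 1) :: P').Perm ((m + 1) :: (List.range m).map (· + 1)) := by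
        refine (p1.trans hA).trans ?_
        rw [List.range_succ, List.map_append]
        exact List.perm_append_comm
      exact h2.cons_inv
    obtain ⟨t2, e2⟩ := ih P' ((m + 1) :: C) hP'perm
    refine ⟨t2 + (1 + t1), ?_⟩
    rw [Function.iterate_add_apply, Function.iterate_add_apply, e1, Function.iterate_one,
      par_cons _ (by omega)]
    have : ins (m + 1) (m + 1) (P' ++ 0 :: C) = P' ++ 0 :: (m + 1) :: C := by
      have h3 := ins_append_right 0 (m + 1) (P' ++ [0]) C
      rw [Nat.add_zero, ins_zero] at h3
      have h4 : (P' ++ [0]).length = m + 1 := by simp [hP']
      rw [h4] at h3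
      simpa using h3
    rw [this, e2, List.range_succ (n := m + 1)]
    simp

end R122.FF
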